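import Pool.Agent.Helper75.PZ.Stmts2

/-! Row GD of sheet PZ: leading terms of the operators. -/

set_option autoImplicit false

universe u

open Module TensorProduct

namespace Pool.Agent.Helper70.PZ.GD

open Pool.Agent.Helper75.PX Pool.Agent.Helper75.PZ

theorem n1_add (a b : G2) : n1 (a + b) = n1 a + n1 b := rfl

theorem n2_zero : n2 (0 : G2) = 0 := rfl

theorem n1_zero : n1 (0 : G2) = 0 := rfl

theorem n1_smul (k : ℕ) : n1 (k • (toLex ((1 : ℤ), (0 : ℤ)) : G2)) = (k : ℤ) := by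
  induction k with
  | zero => rw [zero_smul, n1_zero]; rfl
  | succ k ih =>
    rw [succ_nsmul, n1_add, ih]
    push_cast
    rfl

/-- order and leading coefficient from the coefficients -/
theorem hs_char {M : Type u} [Field M] (h : HS M) (γ : G2) (h1 : h.coeff γ ≠ 0)
    (h2 : ∀ γ' < γ, h.coeff γ' = 0) : h ≠ 0 ∧ h.order = γ ∧ h.leadingCoeff = h.coeff γ := by
  have h0 : h ≠ 0 := by
    rintro rfl
    exact h1 rfl
  have h3 : h.order ≤ γ := HahnSeries.order_le_of_coeff_ne_zero h1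
  have h4 : h.coeff h.order ≠ 0 := fun hh => h0 (HahnSeries.coeff_order_eq_zero.1 hh)
  have h5 : h.order = γ := by
    rcases h3.lt_or_eq with h6 | h6
    · exact absurd (h2 _ h6) h4
    · exact h6
  exact ⟨h0, h5, by rw [HahnSeries.leadingCoeff_eq, h5]⟩

/-- the term of least order wins -/
theorem hs_sum {M : Type u} [Field M] {ι : Type} [Fintype ι] (T : ι → HS M) (l0 : ι)
    (h0 : T l0 ≠ 0) (h : ∀ l, l ≠ l0 → T l = 0 ∨ (T l0).order < (T l).order) :
    (∑ l, T l) ≠ 0 ∧ (∑ l, T l).order = (T l0).order ∧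
      (∑ l, T l).leadingCoeff = (T l0).leadingCoeff := by
  classical
  have hc : ∀ γ : G2, (∑ l, T l).coeff γ = ∑ l, (T l).coeff γ := by
    intro γ
    rw [HahnSeries.coeff_sum]
  have h1 : (∑ l, T l).coeff (T l0).order = (T l0).leadingCoeff := by
    rw [hc, Finset.sum_eq_single l0]
    · rw [HahnSeries.leadingCoeff_eq]
    · intro l _ hl
      rcases h l hl with h2 | h2
      · rw [h2]; rfl
      · exact HahnSeries.coeff_eq_zero_of_lt_order h2
    · intro h2; exact absurd (Finset.mem_univ _) h2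
  have h2 : ∀ γ' < (T l0).order, (∑ l, T l).coeff γ' = 0 := by
    intro γ' hγ
    rw [hc]
    refine Finset.sum_eq_zero fun l _ => ?_
    by_cases hl : l = l0
    · rw [hl]; exact HahnSeries.coeff_eq_zero_of_lt_order hγ
    · rcases h l hl with h3 | h3
      · rw [h3]; rfl
      · exact HahnSeries.coeff_eq_zero_of_lt_order (hγ.trans h3)
  obtain ⟨a, b, c⟩ := hs_char (∑ l, T l) (T l0).order
    (by rw [h1]; exact HahnSeries.leadingCoeff_ne_zero.2 h0) h2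
  exact ⟨a, b, by rw [c, h1]⟩

theorem phi_lead {F M : Type u} [Field F] [Field M] [Algebra F M] {σ : M ≃ₐ[F] M}
    {φ : HS M →ₐ[F] HS M} (hφ : PHI σ φ) (h : HS M) (h0 : h ≠ 0) :
    φ h ≠ 0 ∧ (φ h).order = h.order ∧
      (φ h).leadingCoeff = (-1 : M) ^ (n2 h.order) * σ h.leadingCoeff := by
  have hc := fun γ => hφ h γ
  have h1 : (φ h).coeff h.order ≠ 0 := by
    rw [hc]
    refine mul_ne_zero (zpow_ne_zero _ (by norm_num)) ?_
    intro h2
    have := σ.injective (h2.trans (map_zero σ).symm)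
    exact h0 (HahnSeries.coeff_order_eq_zero.1 this)
  have h2 : ∀ γ' < h.order, (φ h).coeff γ' = 0 := by
    intro γ' hγ
    rw [hc, HahnSeries.coeff_eq_zero_of_lt_order hγ, map_zero, mul_zero]
  obtain ⟨a, b, c⟩ := hs_char (φ h) h.order h1 h2
  exact ⟨a, b, by rw [c, hc, HahnSeries.leadingCoeff_eq]⟩

theorem phi_iter {F M : Type u} [Field F] [Field M] [Algebra F M] {σ : M ≃ₐ[F] M}
    {φ : HS M →ₐ[F] HS M} (hφ : PHI σ φ) (h : HS M) (h0 : h ≠ 0) (l : ℕ) :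
    (φ^[l]) h ≠ 0 ∧ ((φ^[l]) h).order = h.order ∧
      ((φ^[l]) h).leadingCoeff = ((-1 : M) ^ (n2 h.order)) ^ l * (σ^[l]) h.leadingCoeff := by
  induction l with
  | zero => exact ⟨h0, rfl, by simp⟩
  | succ l ih =>
    obtain ⟨a, b, c⟩ := ih
    obtain ⟨a', b', c'⟩ := phi_lead hφ _ a
    rw [Function.iterate_succ_apply', Function.iterate_succ_apply']
    refine ⟨a', b'.trans b, ?_⟩
    rw [c', b, c, map_mul, map_pow, map_zpow₀, map_neg, map_one, pow_succ]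
    ring

theorem xx_pow {M : Type u} [Field M] (l : ℕ) :
    XX M ^ l ≠ 0 ∧ (XX M ^ l).order = l • (toLex ((1 : ℤ), (0 : ℤ)) : G2) ∧
      (XX M ^ l).leadingCoeff = 1 := by
  have h0 : XX M ≠ 0 := by
    unfold XX
    exact (HahnSeries.single_ne_zero one_ne_zero)
  refine ⟨pow_ne_zero _ h0, ?_, ?_⟩
  · rw [HahnSeries.order_pow]
    congr 1
    exact HahnSeries.order_single one_ne_zero
  · induction l with
    | zero => rw [pow_zero, HahnSeries.leadingCoeff_one]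
    | succ l ih =>
      rw [pow_succ, HahnSeries.leadingCoeff_mul, ih, one_mul]
      unfold XX
      exact HahnSeries.leadingCoeff_of_single

theorem term {F M : Type u} [Field F] [Field M] [Algebra F M] {σ : M ≃ₐ[F] M}
    {φ : HS M →ₐ[F] HS M} (hφ : PHI σ φ) (ψ : HS M →ₐ[F] HS M) (x f : HS M) (hx : x ≠ 0)
    (hf : f ≠ 0) (l : ℕ) :
    ψ x * XX M ^ l * (φ^[l]) f ≠ 0 ∧
      (ψ x * XX M ^ l * (φ^[l]) f).order =
        (ψ x).order + l • (toLex ((1 : ℤ), (0 : ℤ)) : G2) + f.order ∧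
      (ψ x * XX M ^ l * (φ^[l]) f).leadingCoeff =
        (ψ x).leadingCoeff * (((-1 : M) ^ (n2 f.order)) ^ l * (σ^[l]) f.leadingCoeff) := by
  have h1 : ψ x ≠ 0 := (map_ne_zero ψ).2 hx
  obtain ⟨x1, x2, x3⟩ := xx_pow (M := M) l
  obtain ⟨f1, f2, f3⟩ := phi_iter hφ f hf l
  have h2 : ψ x * XX M ^ l ≠ 0 := mul_ne_zero h1 x1
  refine ⟨mul_ne_zero h2 f1, ?_, ?_⟩
  · rw [HahnSeries.order_mul h2 f1, HahnSeries.order_mul h1 x1, x2, f2]
  · rw [HahnSeries.leadingCoeff_mul, HahnSeries.leadingCoeff_mul, x3, f3, mul_one]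

theorem sigma_pow {F M : Type u} [Field F] [Field M] [Algebra F M] (σ : M ≃ₐ[F] M)
    (l : ℕ) (m : M) : (σ ^ l) m = (σ^[l]) m := by
  induction l with
  | zero => rfl
  | succ l ih =>
    rw [pow_succ', Function.iterate_succ_apply', ← ih]
    rfl

theorem sigma_zpow {F M : Type u} [Field F] [Field M] [Algebra F M] (σ : M ≃ₐ[F] M)
    (hσ : ∀ m, σ (σ (σ m)) = m) (m : ℤ) (l : ℕ) (x : M) :
    (σ ^ (6 * m + (l : ℤ))) x = (σ^[l]) x := by
  have h3 : σ ^ (3 : ℕ) = 1 := by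
    ext y
    rw [sigma_pow]
    exact hσ y
  have h6 : σ ^ (6 : ℤ) = 1 := by
    have : σ ^ (6 : ℤ) = (σ ^ (3 : ℕ)) ^ (2 : ℕ) := by
      rw [← pow_mul, ← zpow_natCast]
      rfl
    rw [this, h3, one_pow]
  rw [zpow_add, zpow_mul, h6, one_zpow, one_mul, zpow_natCast, sigma_pow]

theorem sign_zpow {M : Type u} [Field M] (m k : ℤ) (l : ℕ) :
    (-1 : M) ^ ((6 * m + (l : ℤ)) * k) = ((-1 : M) ^ k) ^ l := by
  have h1 : (-1 : M) ≠ 0 := by norm_num
  have e : (6 * m + (l : ℤ)) * k = (3 * m * k + 3 * m * k) + k * (l : ℤ) := by ring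
  rw [e, zpow_add₀ h1, Even.neg_one_zpow ⟨_, rfl⟩, one_mul, zpow_mul, zpow_natCast]

theorem st_GD : ST_GD.{u} := by
  intro F M _ _ _ σ φ ψ hφ hψ hσ e he f hf
  obtain ⟨l1, hl1⟩ : ∃ l, e l ≠ 0 := by
    by_contra hh
    push Not at hh
    exact he (funext hh)
  obtain ⟨α, hα⟩ : ∃ α : Fin 6 → G2, ∀ l, α l =
    (ψ (e l)).order + (l : ℕ) • (toLex ((1 : ℤ), (0 : ℤ)) : G2) := ⟨_, fun l => rfl⟩
  classical
  obtain ⟨l0, hl0, hmin⟩ := Finset.exists_min_image (Finset.univ.filter fun l => e l ≠ 0) α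
    ⟨l1, by simp [hl1]⟩
  have hl0' : e l0 ≠ 0 := (Finset.mem_filter.1 hl0).2
  have hn1 : ∀ l, e l ≠ 0 → ∃ m : ℤ, n1 (α l) = 6 * m + ((l : ℕ) : ℤ) := by
    intro l hl
    have h0 : ψ (e l) ≠ 0 := (map_ne_zero ψ).2 hl
    have h1 : 6 ∣ n1 (ψ (e l)).order := by
      by_contra h2
      exact h0 (HahnSeries.coeff_order_eq_zero.1 (hψ.2 (e l) _ h2))
    obtain ⟨m, hm⟩ := h1
    exact ⟨m, by rw [hα, n1_add, hm, n1_smul]⟩
  have hlt : ∀ l, l ≠ l0 → e l ≠ 0 → α l0 < α l := by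
    intro l hl hel
    refine lt_of_le_of_ne (hmin l (Finset.mem_filter.2 ⟨Finset.mem_univ _, hel⟩))
      fun heq => hl ?_
    obtain ⟨m, hm⟩ := hn1 l hel
    obtain ⟨m', hm'⟩ := hn1 l0 hl0'
    rw [← heq, hm'] at hm
    have h3 := l.2
    have h4 := l0.2
    exact Fin.ext (by omega)
  have key : ∀ f : HS M, f ≠ 0 → op φ ψ e f ≠ 0 ∧ (op φ ψ e f).order = α l0 + f.order ∧
      (op φ ψ e f).leadingCoeff = (ψ (e l0)).leadingCoeff *
        (((-1 : M) ^ (n2 f.order)) ^ (l0 : ℕ) * (σ^[(l0 : ℕ)]) f.leadingCoeff) := by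
    intro f hf
    obtain ⟨t1, t2, t3⟩ := term hφ ψ (e l0) f hl0' hf l0
    obtain ⟨a, b, c⟩ := hs_sum
      (fun l : Fin 6 => ψ (e l) * XX M ^ (l : ℕ) * (φ^[(l : ℕ)]) f) l0 t1 (by
        intro l hl
        by_cases hel : e l = 0
        · left
          show ψ (e l) * XX M ^ (l : ℕ) * (φ^[(l : ℕ)]) f = 0
          rw [hel, map_zero, zero_mul, zero_mul]
        · right
          show (ψ (e l0) * XX M ^ (l0 : ℕ) * (φ^[(l0 : ℕ)]) f).order <
            (ψ (e l) * XX M ^ (l : ℕ) * (φ^[(l : ℕ)]) f).order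
          rw [t2, (term hφ ψ (e l) f hel hf l).2.1, ← hα, ← hα]
          exact add_lt_add_left (hlt l hl hel) _)
    refine ⟨a, ?_, ?_⟩
    · rw [hα, ← t2]
      exact b
    · rw [← t3]
      exact c
  obtain ⟨a, b, c⟩ := key f hf
  obtain ⟨a1, b1, c1⟩ := key 1 one_ne_zero
  rw [HahnSeries.order_one, add_zero] at b1
  have hit : (σ^[(l0 : ℕ)]) (1 : M) = 1 := by
    rw [← sigma_pow, map_one]
  rw [HahnSeries.order_one, n2_zero, zpow_zero, one_pow, HahnSeries.leadingCoeff_one, hit,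
    mul_one, mul_one] at c1
  obtain ⟨m, hm⟩ := hn1 l0 hl0'
  refine ⟨a, by rw [b, b1], ?_⟩
  rw [c, c1, b1, hm, sigma_zpow σ hσ, sign_zpow]
  ring

end Pool.Agent.Helper70.PZ.GD
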