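import Pool.Agent.Helper75.PZ.Stmts

/-! Row LB of sheet PZ: the lower bound from leading symbols. -/

set_option autoImplicit false

universe u

open Module TensorProduct

namespace Pool.Agent.Helper70.PZ

open Pool.Agent.Helper75.PX Pool.Agent.Helper75.PZ

theorem n1_add (a b : G2) : n1 (a + b) = n1 a + n1 b := rfl

theorem n2_add (a b : G2) : n2 (a + b) = n2 a + n2 b := rfl

/-- a ring homomorphism over `L → K` carries the relations of `D3c` -/
theorem d3c_map {L K B A : Type*} [Field L] [Field K] [Ring B] [Ring A] [Algebra L B]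
    [Algebra K A] (ι : L →+* K) (φ : B →+* A)
    (hφ : ∀ l : L, φ (algebraMap L B l) = algebraMap K A (ι l)) {v w : B} {s d : L}
    (h : D3c v w s d) : D3c (φ v) (φ w) (ι s) (ι d) := by
  have hsm : ∀ (l : L) (z : B), φ (l • z) = (ι l) • φ z := by
    intro l z
    rw [Algebra.smul_def, Algebra.smul_def, map_mul, hφ]
  refine ⟨?_, ?_, ?_, ?_⟩
  · have := congrArg φ h.hy
    rw [map_mul, map_mul, map_add, map_add, hsm, hsm, map_mul, map_one, map_add, map_ofNat] at this
    exact this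
  · have := congrArg φ h.huy
    rw [map_mul, map_mul, map_sub, map_sub, hsm, map_mul, map_ofNat, map_add, map_one] at this
    exact this
  · have := congrArg φ h.hu
    rw [map_mul, map_mul, hφ] at this
    exact this
  · intro h0
    apply h.c0
    apply ι.injective
    rw [h0, map_zero]

theorem st_LB (hQ4 : ST_Q4.{u}) (hC3c : ST_C3c.{u}) (hPD6 : ST_PD6.{u}) (hAN : ST_AN.{u})
    (hCU : ST_CU.{u}) (hNZK : ST_NZK.{u}) (hAB : ST_AB.{u}) (hTD : ST_TD.{u}) : ST_LB.{u} := by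
  intro F K A M _ _ _ _ _ _ _ _ _ σ g c h2 h3 hζ halg hσ hS L B _ _ hBc hBs hB ⟨e⟩
  have := hBc
  have := hBs
  have h2L : (2 : L) ≠ 0 := by
    intro h
    apply h2
    apply (algebraMap F L).injective
    rw [map_ofNat, map_zero]
    exact h
  have h3L : (3 : L) ≠ 0 := by
    intro h
    apply h3
    apply (algebraMap F L).injective
    rw [map_ofNat, map_zero]
    exact h
  have hζK := hNZK F K A M σ g c hζ halg hσ hS
  have hζL : ∀ ζ : L, ζ ^ 2 + ζ + 1 ≠ 0 := by
    intro ζ h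
    apply hζK (algebraMap L K ζ)
    have := congrArg (algebraMap L K) h
    rw [map_add, map_add, map_pow, map_one, map_zero] at this
    exact this
  obtain ⟨B₂, B₃, _, _, _, _, hc2, hs2, hc3, hs3, h4, h9, ⟨eB⟩⟩ := hPD6 L B h2L h3L hB
  have := hc2
  have := hs2
  have := hc3
  have := hs3
  obtain ⟨i, j, x, y, hi, hj, hij, hx, hy⟩ := hQ4 L B₂ h4 h2L
  obtain ⟨v, w, s, d, hD⟩ := hC3c L B₃ h9 h2L h3L hζL
  obtain ⟨Ψ, hΨ⟩ : ∃ Ψ : B →+* A, ∀ l : L, Ψ (algebraMap L B l) =
      algebraMap K A (algebraMap L K l) := by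
    refine ⟨(e : (K ⊗[L] B) →+* A).comp
      ((Algebra.TensorProduct.includeRight : B →ₐ[L] K ⊗[L] B) : B →+* K ⊗[L] B), fun l => ?_⟩
    have h1 : (Algebra.TensorProduct.includeRight : B →ₐ[L] K ⊗[L] B) (algebraMap L B l) =
        algebraMap K (K ⊗[L] B) (algebraMap L K l) := by
      rw [AlgHom.commutes, Algebra.TensorProduct.algebraMap_apply,
        Algebra.TensorProduct.algebraMap_apply]
      rfl
    have h5 : ((e : (K ⊗[L] B) →+* A).comp
      ((Algebra.TensorProduct.includeRight : B →ₐ[L] K ⊗[L] B) : B →+* K ⊗[L] B))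
      (algebraMap L B l) = e ((Algebra.TensorProduct.includeRight : B →ₐ[L] K ⊗[L] B)
        (algebraMap L B l)) := rfl
    rw [h5, h1, AlgEquiv.commutes]
  obtain ⟨φ₂, hφ₂⟩ : ∃ φ : B₂ →+* A, ∀ l : L, φ (algebraMap L B₂ l) =
      algebraMap K A (algebraMap L K l) := by
    refine ⟨Ψ.comp ((eB.symm.toAlgHom.comp
      (Algebra.TensorProduct.includeLeft : B₂ →ₐ[L] B₂ ⊗[L] B₃)) : B₂ →+* B), fun l => ?_⟩
    rw [RingHom.comp_apply, ← hΨ]
    congr 1
    exact AlgHom.commutes (eB.symm.toAlgHom.comp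
      (Algebra.TensorProduct.includeLeft : B₂ →ₐ[L] B₂ ⊗[L] B₃)) l
  obtain ⟨φ₃, hφ₃⟩ : ∃ φ : B₃ →+* A, ∀ l : L, φ (algebraMap L B₃ l) =
      algebraMap K A (algebraMap L K l) := by
    refine ⟨Ψ.comp ((eB.symm.toAlgHom.comp
      (Algebra.TensorProduct.includeRight : B₃ →ₐ[L] B₂ ⊗[L] B₃)) : B₃ →+* B), fun l => ?_⟩
    rw [RingHom.comp_apply, ← hΨ]
    congr 1
    exact AlgHom.commutes (eB.symm.toAlgHom.comp
      (Algebra.TensorProduct.includeRight : B₃ →ₐ[L] B₂ ⊗[L] B₃)) l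
  have hD' := d3c_map (algebraMap L K) φ₃ hφ₃ hD
  obtain ⟨hs0, hsg, hst⟩ := hCU F K A M σ g c hζ halg hσ hS _ _ _ _ hD'
  have hi' : φ₂ i * φ₂ i = algebraMap K A (algebraMap L K x) := by
    rw [← map_mul, hi, hφ₂]
  have hj' : φ₂ j * φ₂ j = algebraMap K A (algebraMap L K y) := by
    rw [← map_mul, hj, hφ₂]
  have hij' : φ₂ i * φ₂ j = -(φ₂ j * φ₂ i) := by
    rw [← map_mul, hij, map_neg, map_mul]
  have hinj : Function.Injective (algebraMap K A) := (algebraMap K A).injective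
  have hx' : algebraMap L K x ≠ 0 := by
    intro h
    exact hx ((algebraMap L K).injective (by rw [h, map_zero]))
  have hy' : algebraMap L K y ≠ 0 := by
    intro h
    exact hy ((algebraMap L K).injective (by rw [h, map_zero]))
  have hi0 : φ₂ i ≠ 0 := by
    intro h
    rw [h, zero_mul] at hi'
    exact hx' (hinj (by rw [← hi', map_zero]))
  have hj0 : φ₂ j ≠ 0 := by
    intro h
    rw [h, zero_mul] at hj'
    exact hy' (hinj (by rw [← hj', map_zero]))
  have hodd := hAN F K A M σ g c h2 hσ hS (φ₂ i) (φ₂ j) hi0 hj0 hij'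
  have hgi : g (algebraMap K A (algebraMap L K x)) = g (φ₂ i) + g (φ₂ i) := by
    rw [← hi', hS.gmul _ _ hi0 hi0]
  have hgj : g (algebraMap K A (algebraMap L K y)) = g (φ₂ j) + g (φ₂ j) := by
    rw [← hj', hS.gmul _ _ hj0 hj0]
  have hdet : n1 (g (algebraMap K A (algebraMap L K x))) *
      n2 (g (algebraMap K A (algebraMap L K y))) -
      n1 (g (algebraMap K A (algebraMap L K y))) *
      n2 (g (algebraMap K A (algebraMap L K x))) ≠ 0 := by
    rw [hgi, hgj, n1_add, n1_add, n2_add, n2_add]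
    intro h0
    obtain ⟨r, hr⟩ := hodd
    have h1 : 4 * (n1 (g (φ₂ i)) * n2 (g (φ₂ j)) - n1 (g (φ₂ j)) * n2 (g (φ₂ i))) = 0 := by
      rw [← h0]
      ring
    omega
  have hAI := hAB F K A M σ g c hσ hS (algebraMap L K x) (algebraMap L K y) (algebraMap L K s)
    hx' hy' hs0 hdet hsg hst
  exact hTD F K L (algebraMap L K x) (algebraMap L K y) (algebraMap L K s) x.2 y.2 s.2 hAI

end Pool.Agent.Helper70.PZ
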